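import Mathlib
import Pool.Agent.Lib.helper23.LipA

set_option autoImplicit false

namespace Pool.Agent.Results.MP_8cd1d0_an.Main

open Pool.Agent.Lib.helper23.LF Filter Topology TopologicalSpace Set

universe v

/-- The small ball property. -/
def SmallBall (M : Type) [MetricSpace M] : Prop :=
  ∀ ε : ℝ, 0 < ε → ∃ (x : ℕ → M) (r : ℕ → ℝ), ⋃ n, Metric.closedBall (x n) (r n) = univ ∧
    (∀ n, r n < ε) ∧ Tendsto r atTop (𝓝 0)

/-- Strong norm attainment. -/
def SNA {M : Type} [MetricSpace M] {o : M} (f : Lip0 o) : Prop :=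
  ∃ x y : M, x ≠ y ∧ ‖f‖ = |f.1 x - f.1 y| / dist x y

/-- The unit ball of each finite-dimensional subspace is a polytope. -/
def Polyhedral (X : Type v) [NormedAddCommGroup X] [NormedSpace ℝ X] : Prop :=
  ∀ F : Submodule ℝ X, FiniteDimensional ℝ F →
    ∃ V : Finset X, convexHull ℝ (V : Set X) = (F : Set X) ∩ Metric.closedBall 0 1

section
variable {X : Type v} [NormedAddCommGroup X] [NormedSpace ℝ X]

theorem le_norm {g : StrongDual ℝ X} (hg : ‖g‖ ≤ 1) (y : X) : g y ≤ ‖y‖ :=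
  (le_abs_self _).trans ((g.le_opNorm y).trans (mul_le_of_le_one_left (norm_nonneg _) hg))

theorem seg (h : Polyhedral X) (x u : X) : ∃ (n : ℕ) (g : StrongDual ℝ X), ‖g‖ ≤ 1 ∧ g x = ‖x‖ ∧
    g (x + (1 / (n + 1) : ℝ) • u) = ‖x + (1 / (n + 1) : ℝ) • u‖ := by
  classical
  obtain ⟨V, hV⟩ := h (Submodule.span ℝ {x, u}) (FiniteDimensional.span_of_finite ℝ (toFinite _))
  have h0 : ∀ W : Finset X, ∃ g : StrongDual ℝ X, ‖g‖ ≤ 1 ∧
      ((∃ g' : StrongDual ℝ X, ‖g'‖ ≤ 1 ∧ ∀ v ∈ W, g' v = 1) → ∀ v ∈ W, g v = 1) := fun W => by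
    by_cases e : ∃ g' : StrongDual ℝ X, ‖g'‖ ≤ 1 ∧ ∀ v ∈ W, g' v = 1
    · obtain ⟨g, g1, g2⟩ := e
      exact ⟨g, g1, fun _ => g2⟩
    · exact ⟨0, by simp, fun e' => absurd e' e⟩
  choose G G1 G2 using h0
  have h1 : ∀ y ∈ Submodule.span ℝ {x, u}, ∃ W ∈ V.powerset, G W y = ‖y‖ := fun y hy => by
    rcases eq_or_ne y 0 with rfl | y0
    · exact ⟨∅, by simp, by simp⟩
    have p := norm_pos_iff.2 y0
    obtain ⟨g, g1, g2⟩ := exists_dual_vector'' ℝ y
    refine ⟨V.filter (g · = 1), Finset.mem_powerset.2 (Finset.filter_subset _ _), ?_⟩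
    have a1 := G2 (V.filter (g · = 1)) ⟨g, g1, fun v hv => (Finset.mem_filter.1 hv).2⟩
    generalize G (V.filter (g · = 1)) = k at *
    have a2 : convexHull ℝ (V : Set X) ⊆ {z | g z ≤ 1 ∧ (g z = 1 → k z = 1)} := by
      refine convexHull_min (fun v hv => ⟨(le_norm g1 v).trans ?_, fun e =>
        a1 v (Finset.mem_filter.2 ⟨hv, e⟩)⟩) fun a ha b hb s t hs ht hst => ?_
      · simpa using (hV.le (subset_convexHull ℝ _ hv)).2
      · simp only [mem_setOf_eq, map_add, map_smul, smul_eq_mul]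
        refine ⟨by nlinarith [ha.1, hb.1], fun e => ?_⟩
        rcases hs.eq_or_lt with rfl | hs'
        · obtain rfl : t = 1 := by linarith
          simpa using hb.2 (by simpa using e)
        rcases ht.eq_or_lt with rfl | ht'
        · obtain rfl : s = 1 := by linarith
          simpa using ha.2 (by simpa using e)
        rw [ha.2 (by nlinarith [ha.1, hb.1]), hb.2 (by nlinarith [ha.1, hb.1])]
        linarith
    have a3 := (a2 (a := ‖y‖⁻¹ • y)
      (hV.ge ⟨Submodule.smul_mem _ ‖y‖⁻¹ hy, by simp [norm_smul, p.ne']⟩)).2 (by simp [g2, p.ne'])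
    rw [map_smul, smul_eq_mul, inv_mul_eq_one₀ p.ne'] at a3
    exact a3.symm
  obtain ⟨W, -, hW⟩ := (frequently_exists_finset V.powerset).1 (Frequently.of_forall (f := atTop)
    fun n : ℕ => h1 (x + (1 / (n + 1) : ℝ) • u) (add_mem (Submodule.subset_span (by simp))
      (Submodule.smul_mem _ _ (Submodule.subset_span (by simp)))))
  obtain ⟨n, hn⟩ := hW.exists
  refine ⟨n, G W, G1 W, ?_, hn⟩
  have t : Tendsto (fun n : ℕ => x + (1 / (n + 1) : ℝ) • u) atTop (𝓝 x) := by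
    have := ((tendsto_one_div_add_atTop_nhds_zero_nat (𝕜 := ℝ)).smul_const u).const_add x
    rwa [zero_smul, add_zero] at this
  exact (isClosed_eq (G W).continuous continuous_norm).mem_of_frequently_of_tendsto hW t

theorem face [CompleteSpace X] (h : Polyhedral X) (x : X) :
    (interior {y | ‖x + y‖ = ‖x‖ + ‖y‖}).Nonempty := by
  let φ : ℕ → X ≃ₜ X := fun n => (Homeomorph.smulOfNeZero (1 / (n + 1) : ℝ)
    Nat.one_div_pos_of_nat.ne').trans (Homeomorph.addLeft x)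
  obtain ⟨n, u, hu⟩ := nonempty_interior_of_iUnion_of_closed
    (f := fun n => φ n ⁻¹' {y | ‖x + y‖ = ‖x‖ + ‖y‖})
    (fun n => (isClosed_eq (by fun_prop) (by fun_prop)).preimage (φ n).continuous)
    (eq_univ_of_forall fun u => by
      obtain ⟨n, g, g1, g2, g3⟩ := seg h x u
      refine mem_iUnion.2 ⟨n, le_antisymm (norm_add_le _ _) ?_⟩
      change ‖x‖ + ‖x + (1 / (n + 1) : ℝ) • u‖ ≤ ‖x + (x + (1 / (n + 1) : ℝ) • u)‖
      rw [← g2, ← g3, ← map_add]
      exact le_norm g1 _)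
  exact ⟨φ n u, by rwa [← Homeomorph.preimage_interior] at hu⟩

theorem smooth [CompleteSpace X] [SeparableSpace X] (h : Polyhedral X) :
    Dense {y | ∀ g k : StrongDual ℝ X, ‖g‖ ≤ 1 → ‖k‖ ≤ 1 → g y = ‖y‖ → k y = ‖y‖ → g = k} := by
  let z := denseSeq X
  let G : ℕ × ℕ → Set X := fun p => ⋃ t > (0 : ℝ),
    {y | ‖y + t • z p.1‖ + ‖y - t • z p.1‖ - 2 * ‖y‖ < t * (1 / (p.2 + 1))}
  refine (dense_iInter_of_isOpen (f := G) (fun p => isOpen_biUnion fun t _ =>
    isOpen_lt (by fun_prop) continuous_const) fun p => ?_).mono fun y hy g k g1 k1 g2 k2 => ?_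
  · refine Metric.dense_iff.2 fun y r hr => ?_
    have p0 : 0 < r / (‖z p.1‖ + 1) := by positivity
    obtain ⟨n, g, g1, g2, g3⟩ := seg h y ((r / (‖z p.1‖ + 1)) • z p.1)
    rw [smul_smul] at g3
    have p1 : 1 / ((n : ℝ) + 1) * (r / (‖z p.1‖ + 1)) ≤ r / (‖z p.1‖ + 1) :=
      mul_le_of_le_one_left p0.le ((div_le_one (by positivity)).2 (by simp))
    have p2 : 0 < 1 / ((n : ℝ) + 1) * (r / (‖z p.1‖ + 1)) := by positivity
    generalize 1 / ((n : ℝ) + 1) * (r / (‖z p.1‖ + 1)) = t at *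
    refine ⟨y + (t / 2) • z p.1, ?_, mem_iUnion₂.2 ⟨t / 2, half_pos p2, ?_⟩⟩
    · rw [Metric.mem_ball, dist_eq_norm, add_sub_cancel_left, norm_smul,
        Real.norm_of_nonneg (half_pos p2).le]
      rw [le_div_iff₀ (by positivity)] at p1
      nlinarith [norm_nonneg (z p.1)]
    · have a1 := le_norm g1 (y + (t / 2) • z p.1)
      have a2 : 0 < t / 2 * (1 / ((p.2 : ℝ) + 1)) := by positivity
      rw [mem_setOf_eq, add_sub_cancel_right, add_assoc, ← add_smul, add_halves, ← g3, ← g2]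
      simp only [map_add, map_smul, smul_eq_mul] at a1 ⊢
      linarith
  · have a1 : ∀ j, g (z j) - k (z j) ≤ 0 := fun j =>
      ge_of_tendsto' tendsto_one_div_add_atTop_nhds_zero_nat fun m => by
        obtain ⟨t, t0, ht⟩ := mem_iUnion₂.1 (mem_iInter.1 hy (j, m))
        have b1 := le_norm g1 (y + t • z j)
        have b2 := le_norm k1 (y - t • z j)
        simp only [map_add, map_sub, map_smul, smul_eq_mul, mem_setOf_eq] at b1 b2 ht
        refine le_of_mul_le_mul_left ?_ t0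
        linarith
    have a2 : ∀ v, g v - k v ≤ 0 := fun v => (denseRange_denseSeq X).induction_on v
      (isClosed_le (by fun_prop) continuous_const) a1
    refine ContinuousLinearMap.ext fun v => ?_
    have := a2 (-v)
    rw [map_neg, map_neg] at this
    linarith [a2 v]

theorem boundary [CompleteSpace X] [SeparableSpace X] (h : Polyhedral X) :
    ∃ g : ℕ → StrongDual ℝ X, (∀ n, ‖g n‖ ≤ 1) ∧ ∀ x, ∃ n, g n x = ‖x‖ := by
  let A : Set (StrongDual ℝ X) := {g | ‖g‖ ≤ 1 ∧ (interior {y | g y = ‖y‖}).Nonempty}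
  have a1 : ∀ x, ∃ g ∈ A, g x = ‖x‖ := fun x => by
    obtain ⟨y, y1, y2⟩ := (smooth h).exists_mem_open isOpen_interior (face h x)
    obtain ⟨g, g1, g2⟩ := exists_dual_vector'' ℝ y
    have b : ∀ z, ‖y + z‖ = ‖y‖ + ‖z‖ → g z = ‖z‖ := fun z hz => by
      obtain ⟨k, k1, k2⟩ := exists_dual_vector'' ℝ (y + z)
      rw [map_add, hz, RCLike.ofReal_real_eq_id, id] at k2
      rw [y1 g k g1 k1 g2 (by linarith [le_norm k1 y, le_norm k1 z])]
      linarith [le_norm k1 y, le_norm k1 z]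
    exact ⟨g, ⟨g1, (face h y).mono (interior_mono b)⟩, b x (by
      rw [add_comm, add_comm ‖y‖]; exact interior_subset (s := {y | ‖x + y‖ = ‖x‖ + ‖y‖}) y2)⟩
  have a2 : A.Countable := PairwiseDisjoint.countable_of_isOpen
    (s := fun g => interior {y | g y = ‖y‖}) (fun g _ k _ hne => disjoint_left.2 fun p p1 p2 => by
      have : (g - k).ker = ⊤ := Submodule.eq_top_of_nonempty_interior' _ ⟨p, interior_mono
        (fun y (hy : y ∈ {y | g y = ‖y‖} ∩ {y | k y = ‖y‖}) => sub_eq_zero.2 (hy.1.trans hy.2.symm))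
        (interior_inter.ge ⟨p1, p2⟩)⟩
      exact hne (ContinuousLinearMap.ext fun v => sub_eq_zero.1
        (this ▸ Submodule.mem_top : v ∈ (g - k).ker))) (fun _ _ => isOpen_interior)
    fun g hg => hg.2
  obtain ⟨g, hg⟩ := a2.exists_eq_range ⟨_, (a1 0).choose_spec.1⟩
  exact ⟨g, fun n => (hg ▸ mem_range_self n : g n ∈ A).1, fun x => by
    obtain ⟨k, k1, k2⟩ := a1 x
    obtain ⟨n, rfl⟩ : k ∈ range g := hg ▸ k1
    exact ⟨n, k2⟩⟩

theorem not_poly {H : Type} [NormedAddCommGroup H] [InnerProductSpace ℝ H] [CompleteSpace H]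
    [SeparableSpace H] (hH : ¬ FiniteDimensional ℝ H) (e : H ≃L[ℝ] X) : ¬ Polyhedral X := by
  intro h
  have : CompleteSpace X := e.symm.isUniformEmbedding.isUniformInducing.completeSpace
    (by rw [e.symm.surjective.range_eq]; exact isComplete_univ)
  have := e.surjective.denseRange.separableSpace e.continuous
  obtain ⟨g, g1, g2⟩ := boundary h
  let r : ℕ → H := fun n => (InnerProductSpace.toDual ℝ H).symm (g n ∘L e.toContinuousLinearMap)
  have r1 : ∀ n v, inner ℝ (r n) v = g n (e v) := fun n v => InnerProductSpace.toDual_symm_apply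
  have step : ∀ (s : Finset H) (x : H) (a : ℝ), ∃ u, (∀ v ∈ s, inner ℝ v u = 0) ∧
      ‖e (x + u)‖ = max ‖e x‖ a := fun s x a => by
    obtain ⟨u, u1, u2⟩ := (Submodule.ne_bot_iff _).1 fun hb : (Submodule.span ℝ (s : Set H))ᗮ = ⊥ =>
      hH (Module.finite_def.2 ⟨s, Submodule.orthogonal_eq_bot_iff.1 hb⟩)
    have p : 0 < ‖e u‖ := by simpa using u2
    have q := norm_nonneg (e x)
    obtain ⟨t, ht⟩ := mem_range_of_exists_le_of_exists_ge (f := fun t : ℝ => ‖e (x + t • u)‖)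
      (c := max ‖e x‖ a) (by fun_prop) ⟨0, by simp⟩ ⟨(max ‖e x‖ a + ‖e x‖) / ‖e u‖, by
        have := norm_sub_le (e (x + ((max ‖e x‖ a + ‖e x‖) / ‖e u‖) • u)) (e x)
        rw [← map_sub, add_sub_cancel_left, map_smul, norm_smul, Real.norm_of_nonneg
          (by positivity), div_mul_cancel₀ _ p.ne'] at this
        linarith⟩
    exact ⟨t • u, fun v hv => by
      rw [inner_smul_right, u1 v (Submodule.subset_span hv), mul_zero], ht⟩
  classical
  choose u u1 u2 using step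
  let q : ℕ → H × Finset H := fun n => n.rec (0, ∅) fun n p =>
    (p.1 + u (insert p.1 (insert (r n) p.2)) p.1 (1 - 1 / (n + 2)), insert p.1 (insert (r n) p.2))
  have q1 : ∀ n, ‖e (q n).1‖ = 1 - 1 / (n + 1) := fun n => by
    induction n with
    | zero => simp [q]
    | succ n ih =>
      refine (u2 _ _ _).trans ?_
      rw [ih, max_eq_right (by gcongr; norm_num)]
      push_cast
      ring
  have q2 : ∀ n m, n ≤ m → (q n).2 ⊆ (q m).2 := fun n m h => by
    induction h with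
    | refl => rfl
    | step _ ih => exact ih.trans ((Finset.subset_insert _ _).trans (Finset.subset_insert _ _))
  have q3 : ∀ n m, n ≤ m → ∀ v ∈ (q (n + 1)).2, inner ℝ v (q m).1 = inner ℝ v (q n).1 :=
    fun n m h v hv => by
      induction h with
      | refl => rfl
      | step k ih =>
        rw [← ih]
        exact (inner_add_right _ _ _).trans (by
          rw [u1 _ _ _ v (q2 _ _ (Nat.succ_le_succ k) hv), add_zero])
  have q4 : ∀ n m, n ≤ m → ‖(q n).1 - (q m).1‖ ^ 2 = ‖(q m).1‖ ^ 2 - ‖(q n).1‖ ^ 2 :=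
    fun n m h => by
      rw [norm_sub_sq_real, q3 n m h _ (Finset.mem_insert_self _ _), real_inner_self_eq_norm_sq]
      ring
  have q5 : BddAbove (range fun n => ‖(q n).1‖ ^ 2) := ⟨‖e.symm.toContinuousLinearMap‖ ^ 2, by
    rintro _ ⟨n, rfl⟩
    have := e.symm.toContinuousLinearMap.unit_le_opNorm (e (q n).1) (by
      rw [q1]; exact sub_le_self _ (by positivity))
    exact pow_le_pow_left₀ (norm_nonneg _) (by simpa using this) 2⟩
  have q6 : CauchySeq fun n => (q n).1 := cauchySeq_of_le_tendsto_0'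
    (fun n => √((⨆ n, ‖(q n).1‖ ^ 2) - ‖(q n).1‖ ^ 2)) (fun n m h => by
      rw [dist_eq_norm]
      exact Real.le_sqrt_of_sq_le ((q4 n m h).trans_le (sub_le_sub_right (le_ciSup q5 m) _))) (by
      have m : Monotone fun n => ‖(q n).1‖ ^ 2 := fun n m h => by
        linarith [q4 n m h, sq_nonneg ‖(q n).1 - (q m).1‖]
      have := ((tendsto_atTop_ciSup m q5).const_sub (⨆ n, ‖(q n).1‖ ^ 2)).sqrt
      rwa [sub_self, Real.sqrt_zero] at this)
  obtain ⟨x, hx⟩ := cauchySeq_tendsto_of_complete q6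
  obtain ⟨n, hn⟩ := g2 (e x)
  have a1 : ‖e x‖ = 1 - 0 := tendsto_nhds_unique ((e.continuous.tendsto x).comp hx).norm
    ((tendsto_one_div_add_atTop_nhds_zero_nat.const_sub 1).congr fun n => (q1 n).symm)
  have a2 : inner ℝ (r n) x = inner ℝ (r n) (q n).1 := tendsto_nhds_unique
    (tendsto_const_nhds.inner hx) (tendsto_const_nhds.congr' (eventually_atTop.2 ⟨n, fun m h =>
      (q3 n m h _ (Finset.mem_insert_of_mem (Finset.mem_insert_self _ _))).symm⟩))
  rw [r1, r1, hn, a1] at a2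
  have a3 := le_norm (g1 n) (e (q n).1)
  have a4 : 0 < 1 / ((n : ℝ) + 1) := by positivity
  linarith [q1 n]

end

theorem main (H : Type) [NormedAddCommGroup H] [InnerProductSpace ℝ H] [CompleteSpace H]
    [SeparableSpace H] [Nontrivial H] : ∃ (M : Type) (_ : MetricSpace M) (o : M),
      Nontrivial M ∧ SmallBall M ∧ ∃ J : H →ₗᵢ[ℝ] Lip0 o, ∀ y, SNA (J y) := by
  let z := denseSeq H
  let O : ℕ → Set H := fun k => ⋃ n : ℕ, Metric.ball (z n) (1 / (k + 1) * (1 / (n + 1)))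
  have z1 : ∀ n, z n ∈ ⋂ k, O k := fun n => mem_iInter.2 fun k =>
    mem_iUnion.2 ⟨n, Metric.mem_ball_self (by positivity)⟩
  have o1 : ∀ k, IsOpen (O k) := fun k => isOpen_iUnion fun _ => Metric.isOpen_ball
  have o2 : ∀ k, Dense (O k) := fun k => (denseRange_denseSeq H).mono (by
    rintro _ ⟨n, rfl⟩; exact mem_iInter.1 (z1 n) k)
  have o3 : ∀ v, ∃ a b : (⋂ k, O k : Set H), a.1 - b.1 = v := fun v => by
    obtain ⟨x, hx⟩ := (dense_iInter_of_isOpen (f := fun k => O k ∩ Homeomorph.addRight v ⁻¹' O k)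
      (fun k => (o1 k).inter ((o1 k).preimage (Homeomorph.continuous _))) fun k =>
        (o2 k).inter_of_isOpen_left ((o2 k).preimage (Homeomorph.isOpenMap _)) (o1 k)).nonempty
    exact ⟨⟨x + v, mem_iInter.2 fun k => (mem_iInter.1 hx k).2⟩,
      ⟨x, mem_iInter.2 fun k => (mem_iInter.1 hx k).1⟩, add_sub_cancel_left _ _⟩
  let o : (⋂ k, O k : Set H) := ⟨z 0, z1 0⟩
  have l1 : ∀ (y : H) (a b : (⋂ k, O k : Set H)), inner ℝ y (a.1 - z 0) - inner ℝ y (b.1 - z 0) =
      inner ℝ y (a.1 - b.1) := fun y a b => by rw [← inner_sub_right, sub_sub_sub_cancel_right]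
  have l2 : ∀ (y : H) (a b : (⋂ k, O k : Set H)),
      |inner ℝ y (a.1 - z 0) - inner ℝ y (b.1 - z 0)| ≤ ‖y‖ * dist a b := fun y a b => by
    rw [l1, Subtype.dist_eq, dist_eq_norm]; exact abs_real_inner_le_norm _ _
  let J : H →ₗ[ℝ] Lip0 o :=
    { toFun := fun y => ⟨fun a => inner ℝ y (a.1 - z 0), by simp [o], _, norm_nonneg y, l2 y⟩
      map_add' := fun y w => Subtype.ext (funext fun a => inner_add_left y w (a.1 - z 0))
      map_smul' := fun c y => Subtype.ext (funext fun a => real_inner_smul_left y (a.1 - z 0) c) }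
  have l3 : ∀ y, ∃ a b, a ≠ b ∧ ‖y‖ = |(J y).1 a - (J y).1 b| / dist a b := fun y => by
    obtain ⟨v, v0, hv⟩ : ∃ v : H, v ≠ 0 ∧ inner ℝ y v = ‖y‖ * ‖v‖ := by
      rcases eq_or_ne y 0 with rfl | h
      · exact (exists_ne 0).imp fun v hv => ⟨hv, by simp⟩
      · exact ⟨y, h, real_inner_self_eq_norm_mul_norm y⟩
    obtain ⟨a, b, rfl⟩ := o3 v
    refine ⟨a, b, by rintro rfl; simp at v0, ?_⟩
    change _ = |inner ℝ y (a.1 - z 0) - inner ℝ y (b.1 - z 0)| / _
    rw [l1, hv, Subtype.dist_eq, dist_eq_norm, abs_of_nonneg (by positivity),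
      mul_div_cancel_right₀ _ (norm_ne_zero_iff.2 v0)]
  have l4 : ∀ y, ‖J y‖ = ‖y‖ := fun y => le_antisymm (norm_le _ (norm_nonneg y) (l2 y)) (by
    obtain ⟨a, b, h1, h2⟩ := l3 y
    rw [h2, div_le_iff₀ (dist_pos.2 h1)]
    exact lip _ a b)
  refine ⟨_, inferInstance, o, ?_, fun ε hε => ?_, ⟨J, l4⟩, fun y => ?_⟩
  · obtain ⟨a, b, h, -⟩ := l3 0
    exact ⟨a, b, h⟩
  · obtain ⟨k, hk⟩ := exists_nat_one_div_lt hε
    refine ⟨fun n => ⟨z n, z1 n⟩, fun n => 1 / (k + 1) * (1 / (n + 1)), eq_univ_of_forall fun a => ?_,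
      fun n => lt_of_le_of_lt (mul_le_of_le_one_right (by positivity)
        ((div_le_one (by positivity)).2 (by simp))) hk,
      by simpa using tendsto_one_div_add_atTop_nhds_zero_nat.const_mul (1 / ((k : ℝ) + 1))⟩
    obtain ⟨n, hn⟩ := mem_iUnion.1 (mem_iInter.1 a.2 k)
    exact mem_iUnion.2 ⟨n, (Metric.mem_ball.1 hn).le⟩
  · obtain ⟨a, b, h1, h2⟩ := l3 y
    exact ⟨a, b, h1, (l4 y).trans h2⟩

theorem result : ∃ (M : Type) (_ : MetricSpace M) (o : M), Nontrivial M ∧ SmallBall M ∧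
    ∃ Y : Submodule ℝ (Lip0 o), IsClosed (Y : Set (Lip0 o)) ∧ (∀ f ∈ Y, SNA f) ∧
      ∀ (X : Type v) [NormedAddCommGroup X] [NormedSpace ℝ X], Polyhedral X →
        IsEmpty (Y ≃L[ℝ] X) := by
  let b : HilbertBasis ℕ ℝ (lp (fun _ : ℕ => ℝ) 2) := default
  have h1 : SeparableSpace (lp (fun _ : ℕ => ℝ) 2) := isSeparable_univ_iff.1 (by
    have := (countable_range b).isSeparable.span (R := ℝ).closure
    rwa [← Submodule.topologicalClosure_coe, b.dense_span] at this)
  have h2 : ¬ FiniteDimensional ℝ (lp (fun _ : ℕ => ℝ) 2) := fun _ =>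
    Module.Finite.not_linearIndependent_of_infinite _ b.orthonormal.linearIndependent
  have := nontrivial_of_ne _ _ (b.orthonormal.ne_zero 0)
  obtain ⟨M, _, o, m1, m2, J, hJ⟩ := main (lp (fun _ : ℕ => ℝ) 2)
  exact ⟨M, _, o, m1, m2, J.toLinearMap.range, J.isometry.isClosedEmbedding.isClosed_range,
    by rintro _ ⟨y, rfl⟩; exact hJ y, fun X _ _ h =>
      ⟨fun e => not_poly h2 (J.equivRange.toContinuousLinearEquiv.trans e) h⟩⟩

end Pool.Agent.Results.MP_8cd1d0_an.Main
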